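import Mathlib
import Pool.Agent.Helper23.NSA.Exist
import Pool.Agent.Helper15.NumField
import Pool.Agent.Helper69.HK.Pts
import Pool.Agent.Helper92.HK.Full

/-!
# One form of multidegree `(2, .., 2)` in a product of projective lines: potential density
-/

set_option autoImplicit false

namespace Pool.Agent.Helper23.N1

open MvPolynomial Pool.Agent.Helper64.HK Pool.Agent.Helper77.HK Pool.Agent.Helper47.HK
open Pool.Agent.Helper23.NSA
open Pool.Agent.Helper28.HN (I aff)

/-! ### Degrees -/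

section deg

variable {k : ℕ} {a : Fin (k + 1) → Fin (0 + 1)} {K : Type*} [Field K]

theorem deg_Mf (q : Fin k × Fin (0 + 1)) (c : Ix a → K) (i : Fin (0 + 1))
    (U V : Fin (k + 1) → I 0 → MvPolynomial (Fin k × Fin (0 + 1)) K)
    (hU : ∀ j l, degreeOf q (U j l) ≤ if j = q.1.succ then 1 else 0)
    (hV : ∀ j l, degreeOf q (V j l) ≤ if j = q.1.succ then 1 else 0) :
    degreeOf q (Mf (fun e => C (c e)) i U V) ≤ 2 := by
  classical
  unfold Mf
  refine (degreeOf_sum_le _ _ _).trans (Finset.sup_le fun p _ => ?_)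
  refine (degreeOf_sum_le _ _ _).trans (Finset.sup_le fun r _ => ?_)
  refine (degreeOf_mul_le _ _ _).trans ?_
  have h1 : degreeOf q (C (c ⟨i, p, r⟩) * ∏ j, U j (p j)) ≤ 1 := by
    refine (degreeOf_mul_le _ _ _).trans ?_
    rw [degreeOf_C, zero_add]
    refine (degreeOf_prod_le _ _ _).trans ?_
    refine (Finset.sum_le_sum fun j _ => hU j (p j)).trans ?_
    simp
  have h2 : degreeOf q (∏ j : {j // a j = i}, V j.1 (r j)) ≤ 1 := by
    refine (degreeOf_prod_le _ _ _).trans ?_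
    refine (Finset.sum_le_sum fun j _ => hV j.1 (r j)).trans ?_
    rw [Finset.sum_boole, Nat.cast_id, Finset.card_le_one]
    intro x hx y hy
    rw [Finset.mem_filter] at hx hy
    exact Subtype.ext (hx.2.trans hy.2.symm)
  beta_reduce
  omega

theorem deg_ct (q : Fin k × Fin (0 + 1)) (v : I 0 → MvPolynomial (Fin k × Fin (0 + 1)) K)
    (hv : ∀ l, degreeOf q (v l) = 0) (j : Fin (k + 1)) (l : I 0) :
    degreeOf q (Function.update (ct X) 0 v j l) ≤ if j = q.1.succ then 1 else 0 := by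
  classical
  refine Fin.cases ?_ (fun j => ?_) j
  · rw [Function.update_self, hv]
    exact Nat.zero_le _
  · rw [Function.update_of_ne (Fin.succ_ne_zero _)]
    simp only [ct, Fin.cons_succ, aff]
    refine Fin.cases ?_ (fun l => ?_) l
    · rw [Fin.cons_zero, show (1 : MvPolynomial (Fin k × Fin (0 + 1)) K) = C 1 from rfl, degreeOf_C]
      exact Nat.zero_le _
    · rw [Fin.cons_succ, degreeOf_X]
      split_ifs with h1 h2 h2
      · exact le_rfl
      · exact absurd (by rw [h1]) h2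
      · exact Nat.zero_le _
      · exact le_rfl

theorem deg_Y0 (q : Fin k × Fin (0 + 1)) (c : Ix a → MvPolynomial (Fin k × Fin (0 + 1)) K)
    (Z : Fin (k + 1) → I 0 → MvPolynomial (Fin k × Fin (0 + 1)) K) (l : I 0) :
    degreeOf q (Y0 c Z l) = 0 := by
  unfold Y0
  rw [Matrix.det_isEmpty]
  refine Fin.cases ?_ (fun l => Fin.cases ?_ (fun l => l.elim0) l) l
  · exact degreeOf_C _ _
  · exact degreeOf_zero _

theorem deg_Y1 (q : Fin k × Fin (0 + 1)) (c : Ix a → MvPolynomial (Fin k × Fin (0 + 1)) K)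
    (Z : Fin (k + 1) → I 0 → MvPolynomial (Fin k × Fin (0 + 1)) K) (l : I 0) :
    degreeOf q (Y1 c Z l) = 0 := by
  unfold Y1
  rw [Matrix.det_isEmpty]
  refine Fin.cases ?_ (fun l => Fin.cases ?_ (fun l => l.elim0) l) l
  · exact degreeOf_zero _
  · exact degreeOf_C _ _

theorem deg_Pf (q : Fin k × Fin (0 + 1)) (c : Ix a → K)
    (v w : I 0 → MvPolynomial (Fin k × Fin (0 + 1)) K)
    (hv : ∀ l, degreeOf q (v l) = 0) (hw : ∀ l, degreeOf q (w l) = 0) :
    degreeOf q (Pf (fun e => C (c e)) 0 (ct X) v w) ≤ 2 := by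
  unfold Pf
  refine (degreeOf_add_le _ _ _).trans (max_le ?_ ?_)
  · exact deg_Mf q c _ _ _ (deg_ct q v hv) (deg_ct q w hw)
  · exact deg_Mf q c _ _ _ (deg_ct q w hw) (deg_ct q v hv)

/-- The discriminant. -/
noncomputable def Fk {k : ℕ} {a : Fin (k + 1) → Fin (0 + 1)} {S : Type*} [CommRing S]
    (c : Ix a → S) : MvPolynomial (Fin k × Fin (0 + 1)) S :=
  Bp c ^ 2 - Ap c * Cp c

theorem map_Fk {k : ℕ} {a : Fin (k + 1) → Fin (0 + 1)} {S S' : Type*} [CommRing S] [CommRing S']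
    (f : S →+* S') (c : Ix a → S) : map f (Fk c) = Fk fun e => f (c e) := by
  unfold Fk
  rw [map_sub, map_pow, map_mul, map_Ap, map_Bp, map_Cp]

theorem eval_Fk {k : ℕ} {a : Fin (k + 1) → Fin (0 + 1)} {S : Type*} [CommRing S]
    (u : Fin k × Fin (0 + 1) → S) (c : Ix a → S) :
    eval u (Fk c) = Bh c (ct u) ^ 2 - Ah c (ct u) * Ch c (ct u) := by
  unfold Fk
  rw [map_sub, map_pow, map_mul, eval_Ap, eval_Bp, eval_Cp]

theorem deg_Fk (c : Ix a → K) (q : Fin k × Fin (0 + 1)) : degreeOf q (Fk c) ≤ 4 := by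
  have hA : degreeOf q (Ap c) ≤ 2 := deg_Pf q c _ _ (deg_Y1 q _ _) (deg_Y1 q _ _)
  have hB : degreeOf q (Bp c) ≤ 2 := deg_Pf q c _ _ (deg_Y0 q _ _) (deg_Y1 q _ _)
  have hC : degreeOf q (Cp c) ≤ 2 := deg_Pf q c _ _ (deg_Y0 q _ _) (deg_Y0 q _ _)
  unfold Fk
  refine (degreeOf_sub_le _ _ _).trans (max_le ?_ ?_)
  · rw [sq]
    exact (degreeOf_mul_le _ _ _).trans (by omega)
  · exact (degreeOf_mul_le _ _ _).trans (by omega)

end deg

/-! ### The example -/

section ex

variable {k : ℕ} (a : Fin (k + 2) → Fin (0 + 1))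

/-- The monomial `y 0 ^ 2 t_j 1`. -/
def g1 (j : Fin (k + 1)) : Ix a :=
  ⟨a 0, fun i => if i = j.succ then 1 else 0, fun _ => 0⟩

open Classical in
/-- The example. -/
noncomputable def c1 (S : Type*) [CommRing S] : Ix a → S :=
  fun e => (if e = e2 a then 1 else 0) + ∑ j : Fin (k + 1), if e = g1 a j then 1 else 0

variable {S : Type*} [CommRing S]

theorem map_c1 {S' : Type*} [CommRing S'] (f : S →+* S') : (fun e => f (c1 a S e)) = c1 a S' := by
  classical
  funext e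
  simp only [c1, map_add, map_sum, apply_ite f, map_one, map_zero]

variable {a}

theorem Mf_sum' (c : Fin (k + 1) → Ix a → S) (i : Fin (0 + 1)) (U V : Fin (k + 2) → I 0 → S) :
    Mf (fun e => ∑ r, c r e) i U V = ∑ r, Mf (c r) i U V := by
  unfold Mf
  symm
  rw [Finset.sum_comm]
  refine Finset.sum_congr rfl fun p _ => ?_
  rw [Finset.sum_comm]
  refine Finset.sum_congr rfl fun q _ => ?_
  rw [Finset.sum_mul, Finset.sum_mul]

variable {Z : Fin (k + 2) → I 0 → S} (hZ : InC Z)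

include hZ in
theorem prod_g1 (v : I 0 → S) (j : Fin (k + 1)) :
    ∏ i, Function.update Z 0 v i ((g1 a j).2.1 i) = v 0 * Z j.succ 1 := by
  rw [Fin.prod_univ_succ, Finset.prod_eq_single j]
  · simp [g1, (Fin.succ_ne_zero j).symm]
  · intro i _ hi
    have h : i.succ ≠ j.succ := fun h => hi (Fin.succ_injective _ h)
    simp only [g1, if_neg h, Function.update_of_ne (Fin.succ_ne_zero _)]
    exact hZ _
  · intro h
    exact absurd (Finset.mem_univ _) h

include hZ in
theorem prod_r1 (v : I 0 → S) (j : Fin (k + 1)) :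
    ∏ i : {i // a i = (g1 a j).1}, Function.update Z 0 v i.1 ((g1 a j).2.2 i) = v 0 := by
  rw [Finset.prod_eq_single ⟨0, rfl⟩]
  · simp [g1]
  · rintro ⟨i, hi⟩ _ h
    have h0 : i ≠ 0 := fun h' => h (by subst h'; rfl)
    obtain ⟨i, rfl⟩ := Fin.exists_succ_eq.mpr h0
    simp only [g1, Function.update_of_ne (Fin.succ_ne_zero _)]
    exact hZ _
  · intro h
    exact absurd (Finset.mem_univ _) h

include hZ in
theorem Mf_c1 (v w : I 0 → S) :
    Mf (c1 a S) (a 0) (Function.update Z 0 v) (Function.update Z 0 w) =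
      v 1 * w 1 + ∑ j : Fin (k + 1), v 0 * Z j.succ 1 * w 0 := by
  classical
  unfold c1
  rw [Mf_add, Mf_sum']
  have h2 := Mf_single (a := a) (a 0) (e2 a).2.1 (e2 a).2.2 (Function.update Z 0 v)
    (Function.update Z 0 w)
  have g2 := prod_q2 (a := a) hZ w
  change ∏ j : {j // a j = a 0}, _ = _ at g2
  rw [prod_e2 hZ, g2] at h2
  refine congrArg₂ _ h2 (Finset.sum_congr rfl fun j _ => ?_)
  have h1 := Mf_single (a := a) (a 0) (g1 a j).2.1 (g1 a j).2.2 (Function.update Z 0 v)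
    (Function.update Z 0 w)
  have g1' := prod_r1 (a := a) hZ w j
  change ∏ j : {j // a j = a 0}, _ = _ at g1'
  rw [prod_g1 hZ, g1'] at h1
  exact h1

include hZ in
theorem disc_c1 : Bh (c1 a S) Z ^ 2 - Ah (c1 a S) Z * Ch (c1 a S) Z =
    - 4 * ∑ j : Fin (k + 1), Z j.succ 1 := by
  have h1 : Y0 (c1 a S) Z 0 = 1 := by
    rw [Y0_zero, Matrix.det_isEmpty]
  have h2 : Y0 (c1 a S) Z 1 = 0 := Y0_one _ _
  have h3 : Y1 (c1 a S) Z 0 = 0 := Y1_zero _ _
  have h4 : Y1 (c1 a S) Z 1 = 1 := by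
    rw [Y1_one, Matrix.det_isEmpty]
  unfold Bh Ah Ch Pf
  simp only [Mf_c1 hZ, h1, h2, h3, h4, mul_zero, zero_mul, one_mul, mul_one,
    Finset.sum_const_zero, zero_add, add_zero]
  ring

theorem dc_c1 (t : S) : dc (c1 a S) t = - 4 * t := by
  unfold dc
  rw [disc_c1 (inC t), Finset.sum_eq_single 0]
  · change - 4 * (ct (uu t) : Fin (k + 2) → I 0 → S) 1 1 = _
    rw [ct_one]
  · intro j _ hj
    change (Fin.cons 0 (fun j => aff fun i => uu t (j, i)) : Fin (k + 2) → I 0 → S) j.succ 1 = 0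
    rw [Fin.cons_succ]
    change (Fin.cons 1 (fun i => uu t (j, i)) : Fin (0 + 2) → S) (0 : Fin (0 + 1)).succ = 0
    rw [Fin.cons_succ, uu, if_neg]
    intro h
    exact hj (congrArg Prod.fst h)
  · intro h
    exact absurd (Finset.mem_univ _) h

theorem Fk_c1 : Fk (c1 a S) = - 4 * ∑ j : Fin (k + 1), X (j, 0) := by
  unfold Fk Bp Ap Cp
  rw [map_c1 a (C : S →+* MvPolynomial (Fin (k + 1) × Fin (0 + 1)) S)]
  refine (disc_c1 ?_).trans ?_
  · intro j
    simp [ct, aff]
  · rfl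

theorem pderiv_c1 (q : Fin (k + 1) × Fin (0 + 1)) : pderiv q (Fk (c1 a S)) = - 4 := by
  classical
  rw [Fk_c1, show (- 4 : MvPolynomial (Fin (k + 1) × Fin (0 + 1)) S) = C (- 4) by
      rw [map_neg, map_ofNat],
    pderiv_C_mul, map_sum, Finset.sum_eq_single q.1]
  · have h : q = (q.1, 0) := Prod.ext rfl (Fin.ext (by omega))
    rw [← h, pderiv_X_self, mul_one]
  · intro j _ hj
    rw [pderiv_X_of_ne]
    intro h
    exact hj (congrArg Prod.fst h)
  · intro h
    exact absurd (Finset.mem_univ _) h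

variable (a) in
/-- The derivatives of the discriminant at the point of the line. -/
noncomputable def Gq (q : Fin (k + 1) × Fin (0 + 1)) : MvPolynomial (Ix a ⊕ Unit) ℚ :=
  eval₂Hom (rename Sum.inl : MvPolynomial (Ix a) ℚ →ₐ[ℚ] MvPolynomial (Ix a ⊕ Unit) ℚ).toRingHom
    (uu (X (Sum.inr ()))) (pderiv q (Fk (a := a) X))

theorem hom_Gq {L : Type*} [CommRing L] (f : MvPolynomial (Ix a ⊕ Unit) ℚ →+* L)
    (q : Fin (k + 1) × Fin (0 + 1)) (c : Ix a → L) (hc : ∀ e, f (X (Sum.inl e)) = c e) (t : L)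
    (ht : f (X (Sum.inr ())) = t) :
    f (Gq a q) = eval (uu t) (pderiv q (Fk c)) := by
  have h : f.comp (eval₂Hom (rename Sum.inl : MvPolynomial (Ix a) ℚ →ₐ[ℚ]
        MvPolynomial (Ix a ⊕ Unit) ℚ).toRingHom (uu (X (Sum.inr ())))) =
      (eval (uu t) : MvPolynomial (Fin (k + 1) × Fin (0 + 1)) L →+* L).comp
        (map (f.comp (rename Sum.inl : MvPolynomial (Ix a) ℚ →ₐ[ℚ]
          MvPolynomial (Ix a ⊕ Unit) ℚ).toRingHom)) := by
    refine MvPolynomial.ringHom_ext (fun r => ?_) fun i => ?_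
    · rw [RingHom.comp_apply, RingHom.comp_apply, eval₂Hom_C, map_C, eval_C, RingHom.comp_apply]
    · rw [RingHom.comp_apply, RingHom.comp_apply, eval₂Hom_X', map_X, eval_X]
      unfold uu
      split_ifs
      · exact ht
      · exact map_zero _
  have h2 := RingHom.congr_fun h (pderiv q (Fk (a := a) X))
  rw [RingHom.comp_apply, RingHom.comp_apply, ← pderiv_map, map_Fk] at h2
  have h3 : (fun e => (f.comp (rename Sum.inl : MvPolynomial (Ix a) ℚ →ₐ[ℚ]
      MvPolynomial (Ix a ⊕ Unit) ℚ).toRingHom) (X e)) = c := by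
    funext e
    rw [RingHom.comp_apply]
    change f (rename Sum.inl (X e)) = c e
    rw [rename_X, hc]
  rw [h3] at h2
  exact h2

end ex

/-- For general coefficients the discriminant has a zero at which no derivative vanishes. -/
theorem exists_pt {k : ℕ} (hk : 1 ≤ k) (a : Fin (k + 1) → Fin (0 + 1)) :
    ∃ Δ : MvPolynomial (Ix a) ℚ, Δ ≠ 0 ∧ ∀ (K : Type) [Field K] [NumberField K] (c : Ix a → K),
      aeval c Δ ≠ 0 → ∃ p : Fin k × Fin (0 + 1) → AlgebraicClosure K, aeval p (Fk c) = 0 ∧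
        ∀ q, aeval p (pderiv q (Fk c)) ≠ 0 := by
  classical
  obtain ⟨k, rfl⟩ : ∃ l, k = l + 1 := ⟨k - 1, by omega⟩
  have key : ∀ P : MvPolynomial (Ix a ⊕ Unit) ℚ, eval (Sum.elim (c1 a ℚ) fun _ => 0) P =
      (sp (c1 a ℚ) P).eval 0 := by
    intro P
    rw [eval_sp (c1 a ℚ) (fun _ => 0) P]
    exact congrArg (fun f : ℚ →+* ℚ => eval₂ f (Sum.elim (c1 a ℚ) fun _ => 0) P)
      (Subsingleton.elim (RingHom.id ℚ) _)
  obtain ⟨Δ, hΔ, h⟩ := Helper76.XN.et (E := Ix a) (I := Unit) (fun _ => FF a) (∏ q, Gq a q)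
    (c1 a ℚ) (fun _ => 0) (fun _ => by
      rw [key, sp_FF, map_c1, dc_c1]
      simp) (by
      rw [Matrix.det_unique, Matrix.of_apply, key]
      change (sp (c1 a ℚ) (pderiv (Sum.inr ()) (FF a))).eval 0 ≠ 0
      rw [← sp_pderiv, sp_FF, map_c1, dc_c1]
      simp) (by
      rw [map_prod, Finset.prod_ne_zero_iff]
      intro q _
      rw [hom_Gq (eval (Sum.elim (c1 a ℚ) fun _ => 0)) q (c1 a ℚ) (fun e => by simp) 0
        (by simp), pderiv_c1, map_neg, map_ofNat]
      norm_num)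
  refine ⟨Δ, hΔ, fun K _ _ c hc => ?_⟩
  obtain ⟨L, _, _, _, _, x, g1, -, g3⟩ := h K c hc
  set cL : Ix a → L := fun e => algebraMap K L (c e) with hcL
  have hF : map (algebraMap K L) (Fk c) = Fk cL := map_Fk _ _
  have e1 : eval (uu (x ())) (Fk cL) = 0 := by
    rw [eval_Fk]
    have h1 := g1 ()
    rw [← eval_sp, sp_FF] at h1
    have h2 := map_dc (Polynomial.evalRingHom (x ())) (fun e => Polynomial.C (cL e))
      Polynomial.X
    rw [Polynomial.coe_evalRingHom, h1] at h2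
    simp only [Polynomial.eval_C, Polynomial.eval_X] at h2
    exact h2.symm
  have e2 : ∀ q, eval (uu (x ())) (pderiv q (Fk cL)) ≠ 0 := by
    intro q
    rw [map_prod, Finset.prod_ne_zero_iff] at g3
    have h1 := g3 q (Finset.mem_univ q)
    intro h2
    apply h1
    rw [← h2]
    exact hom_Gq (aeval (Sum.elim (fun e => algebraMap K L (c e)) x) :
      MvPolynomial (Ix a ⊕ Unit) ℚ →ₐ[ℚ] L).toRingHom q cL
      (fun e => aeval_X _ _) (x ()) (aeval_X _ _)
  let φ : L →ₐ[K] AlgebraicClosure K := IsAlgClosed.lift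
  have hφ : ∀ Q : MvPolynomial (Fin (k + 1) × Fin (0 + 1)) K,
      aeval (fun q => φ (uu (x ()) q)) Q = φ (eval (uu (x ())) (map (algebraMap K L) Q)) := by
    intro Q
    rw [eval_map, ← aeval_def]
    exact (comp_aeval_apply (uu (x ())) φ Q).symm
  refine ⟨fun q => φ (uu (x ()) q), ?_, fun q => ?_⟩
  · rw [hφ, hF, e1, map_zero]
  · rw [hφ, ← pderiv_map, hF]
    exact (map_ne_zero_iff _ φ.injective).mpr (e2 q)

/-! ### Points on the variety -/

/-- Polynomials which vanish at all points of the variety over the chart are zero. -/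
theorem ni_of {k : ℕ} {a : Fin (k + 1) → Fin (0 + 1)} {L : Type*} [Field L] [CharZero L]
    (c : Ix a → L) (hA : Ap c ≠ 0)
    (hd : ∀ G : MvPolynomial (Fin k × Fin (0 + 1)) L,
      (∀ x : Fin k × Fin (0 + 1) → L, (∃ u : L, u ≠ 0 ∧ u ^ 2 = eval x (Fk c)) →
        eval x G = 0) → G = 0)
    (F : MvPolynomial (Fin k × Fin (0 + 1)) L)
    (hF : ∀ P : Fin (k + 1) → I 0 → L, OnX c P → P 0 ≠ 0 → (∀ j : Fin k, P j.succ 0 = 1) →
      eval (fun q => P q.1.succ q.2.succ) F = 0) : F = 0 := by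
  have h : F * Ap c = 0 := by
    refine hd _ fun x hx => ?_
    obtain ⟨u, -, hu⟩ := hx
    rw [eval_Fk] at hu
    rw [map_mul, eval_Ap]
    by_cases h0 : Ah c (ct x) = 0
    · rw [h0, mul_zero]
    have hz : Fh c (ct x) ((u - Bh c (ct x)) / Ah c (ct x)) = 0 := by
      rw [Pool.Agent.Helper64.HK.Fh_eq]
      field_simp
      linear_combination hu
    set z : L := (u - Bh c (ct x)) / Ah c (ct x) with hzdef
    have hP : OnX c (Function.update (ct x) 0 (yh c (ct x) z)) := by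
      refine onX_upd c 0 (fun r => rf_yh _ _ _ r) ?_
      have h1 : Pf c 0 (ct x) (yh c (ct x) z) (yh c (ct x) z) = 0 := hz
      rw [Pf_self] at h1
      exact (mul_eq_zero.1 h1).resolve_left two_ne_zero
    have h2 := hF _ hP ?_ ?_
    · have h3 : (fun q : Fin k × Fin (0 + 1) =>
          Function.update (ct x) 0 (yh c (ct x) z) q.1.succ q.2.succ) = x := by
        funext q
        rw [Function.update_of_ne (Fin.succ_ne_zero _)]
        rfl
      rw [h3] at h2
      rw [h2, zero_mul]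
    · intro h4
      have h5 := congrFun h4 0
      rw [Function.update_self, yh_zero, Matrix.det_isEmpty] at h5
      exact one_ne_zero h5
    · intro j
      rw [Function.update_of_ne (Fin.succ_ne_zero _)]
      rfl
  exact (mul_eq_zero.1 h).resolve_right hA

open AlgebraicGeometry CategoryTheory Pool.Agent.Helper15 in
/-- Potential density. -/
theorem pd1 {k : ℕ} (hk : 1 ≤ k) (a : Fin (k + 1) → Fin (0 + 1)) :
    ∃ Δ : MvPolynomial (Ix a) ℚ, Δ ≠ 0 ∧ ∀ (K : Type) [Field K] [NumberField K] (c : Ix a → K),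
      aeval c Δ ≠ 0 → ∀ (X : Scheme.{0}) (s : X ⟶ Spec (CommRingCat.of K)) [IrreducibleSpace X],
        BirationalOver K X (Spec (CommRingCat.of
          (MvPolynomial ((Fin k × Fin (0 + 1)) ⊕ Fin (0 + 1)) K ⧸ chartIdeal c))) s
          (Spec.map (CommRingCat.ofHom (algebraMap K
            (MvPolynomial ((Fin k × Fin (0 + 1)) ⊕ Fin (0 + 1)) K ⧸ chartIdeal c)))) →
        PotentiallyDense K X s := by
  classical
  obtain ⟨Δ1, hΔ1, H1⟩ := exists_ns hk a
  obtain ⟨Δ2, hΔ2, H2⟩ := Pool.Agent.Helper82.HK.Gen.chart_nzd (a := a) (by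
    obtain ⟨c, hc⟩ := Pool.Agent.Helper92.HN.exists_rat hΔ1
    exact ⟨c, H1 ℚ c hc⟩)
  obtain ⟨Δ3, hΔ3, H3⟩ := exists_pt hk a
  refine ⟨Δ1 * Δ2 * Δ3, mul_ne_zero (mul_ne_zero hΔ1 hΔ2) hΔ3, fun K _ _ c hc => ?_⟩
  rw [map_mul, map_mul, mul_ne_zero_iff, mul_ne_zero_iff] at hc
  obtain ⟨hns, hD⟩ := H1 K c hc.1.1
  obtain ⟨hprime, hdom⟩ := Pool.Agent.Helper82.HK.Gen.chart_eq_dom hns hD (H2 K c hc.1.2)
  obtain ⟨p, hp0, hp1⟩ := H3 K c hc.2
  have : Nonempty (Fin k × Fin (0 + 1)) := ⟨(⟨0, by omega⟩, 0)⟩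
  obtain ⟨L, hfin, hd⟩ := numberField_dense K (Fk c) (deg_Fk c) p hp0 hp1
  intro X s _ hX
  have : CharZero L := charZero_of_injective_algebraMap (algebraMap K L).injective
  refine PotentiallyDense.of_birational K X _ s _ hX ⟨L, inferInstance, inferInstance, hfin,
    dense_ratPts_spec K L _ fun g hg => ?_⟩
  obtain ⟨F, rfl⟩ := Ideal.Quotient.mk_surjective g
  refine Ideal.Quotient.eq_zero_iff_mem.mpr
    (Pool.Agent.Helper69.HK.mem_of_points hns hD ?_ _ hprime le_rfl hdom F hg)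
  refine ni_of (fun e => algebraMap K L (c e)) ?_ ?_
  · rw [← map_Ap]
    exact (map_ne_zero_iff _ (map_injective _ (algebraMap K L).injective)).mpr (NS.Ap_ne hns)
  · intro G hG
    refine hd G fun x hx => hG x ?_
    obtain ⟨u, hu0, hu⟩ := hx
    refine ⟨u, hu0, ?_⟩
    rw [hu, ← map_Fk, MvPolynomial.eval_map, aeval_def]

end Pool.Agent.Helper23.N1
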